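import Mathlib

/-!
# Infinite groups whose proper subgroups are cyclic, and complete groups, have no proper subgroups
of finite index
-/

set_option autoImplicit false

namespace Pool.Agent.R673.MG

variable {G : Type*} [Group G]

theorem complete_no_fi (h : ∀ g : G, ∀ m : ℕ, 1 ≤ m → ∃ x : G, x ^ m = g)
    (H : Subgroup G) (hH : H.FiniteIndex) : H = ⊤ := by
  have hN : H.normalCore.Normal := inferInstance
  have hNf : H.normalCore.FiniteIndex := inferInstance
  rw [eq_top_iff]
  intro g _
  obtain ⟨x, hx⟩ := h g H.normalCore.index (Nat.one_le_iff_ne_zero.2 hNf.index_ne_zero)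
  apply H.normalCore_le
  rw [← hx]
  exact Subgroup.pow_index_mem _ x

theorem zpow_inj_of {z : G} (hz : ¬ IsOfFinOrder z) {a b : ℤ} (h : z ^ a = z ^ b) : a = b := by
  have := injective_zpow_iff_not_isOfFinOrder.2 hz
  exact this h

/-- a cyclic group does not contain both a nontrivial torsion element and an element of infinite
order -/
theorem not_cyclic_of_torsion {K : Subgroup G} {t y : G} (ht : t ∈ K) (hy : y ∈ K)
    (ht1 : t ≠ 1) (htf : IsOfFinOrder t) (hyf : ¬ IsOfFinOrder y) : ¬ IsCyclic K := by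
  rintro ⟨⟨c, hc⟩, hgen⟩
  obtain ⟨a, ha⟩ := hgen ⟨t, ht⟩
  obtain ⟨b, hb⟩ := hgen ⟨y, hy⟩
  have ha' : c ^ a = t := by simpa using congrArg Subtype.val ha
  have hb' : c ^ b = y := by simpa using congrArg Subtype.val hb
  have hcf : ¬ IsOfFinOrder c := by
    intro h
    apply hyf
    rw [← hb']
    exact h.zpow
  have ha0 : a ≠ 0 := by
    rintro rfl
    apply ht1
    rw [← ha', zpow_zero]
  obtain ⟨n, hn, hn1⟩ := isOfFinOrder_iff_pow_eq_one.1 htf
  rw [← ha', ← zpow_natCast, ← zpow_mul] at hn1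
  have := zpow_inj_of hcf (hn1.trans (zpow_zero c).symm)
  rcases mul_eq_zero.1 this with h | h
  · exact ha0 h
  · omega

theorem cyclic_no_fi [Infinite G] (hnc : ¬ IsCyclic G)
    (h : ∀ H : Subgroup G, H ≠ ⊤ → IsCyclic H) (H : Subgroup G) (hH : H.FiniteIndex) :
    H = ⊤ := by
  by_contra hne
  set N := H.normalCore with hNdef
  have hN : N.Normal := inferInstance
  have hNf : N.FiniteIndex := inferInstance
  have hNt : N ≠ ⊤ := fun e => hne (top_le_iff.1 (e ▸ H.normalCore_le))
  obtain ⟨⟨z, hzN⟩, hgen⟩ := h N hNt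
  have hmemN : ∀ g : G, g ∈ N ↔ ∃ a : ℤ, z ^ a = g := by
    intro g
    constructor
    · intro hg
      obtain ⟨a, ha⟩ := hgen ⟨g, hg⟩
      exact ⟨a, by simpa using congrArg Subtype.val ha⟩
    · rintro ⟨a, rfl⟩
      exact N.zpow_mem hzN a
  have hz : ¬ IsOfFinOrder z := by
    intro hf
    have h1 : (Subgroup.zpowers z : Set G).Finite := by
      rw [Subgroup.zpowers_eq_closure]
      have := hf.finite_zpowers
      rwa [Subgroup.zpowers_eq_closure] at this
    have h2 : (N : Set G).Finite := by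
      refine h1.subset ?_
      intro g hg
      obtain ⟨a, ha⟩ := (hmemN g).1 hg
      exact ⟨a, ha⟩
    have h3 : Finite N := h2
    have h4 : Finite G := by
      apply Nat.finite_of_card_ne_zero
      rw [← N.card_mul_index]
      exact mul_ne_zero Nat.card_pos.ne' hNf.index_ne_zero
    exact not_finite G
  -- z is central
  have hcent : ∀ g : G, g * z = z * g := by
    by_contra hcon
    push Not at hcon
    obtain ⟨g, hg⟩ := hcon
    have hconj : g * z * g⁻¹ = z⁻¹ := by
      obtain ⟨a, ha⟩ := (hmemN _).1 (hN.conj_mem z hzN g)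
      obtain ⟨b, hb⟩ := (hmemN _).1 (hN.conj_mem z hzN g⁻¹)
      have h1 : z ^ (a * b) = z ^ (1 : ℤ) := by
        have e1 : g * (z ^ b) * g⁻¹ = z := by rw [hb]; group
        rw [← conj_zpow] at e1
        rw [← ha, ← zpow_mul] at e1
        rw [e1, zpow_one]
      have h2 : a * b = 1 := zpow_inj_of hz h1
      rcases Int.eq_one_or_neg_one_of_mul_eq_one h2 with h3 | h3
      · exfalso
        apply hg
        rw [h3, zpow_one] at ha
        calc g * z = (g * z * g⁻¹) * g := by group
          _ = z * g := by rw [← ha]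
      · rw [← ha, h3, zpow_neg_one]
    have hconjz : ∀ c : ℤ, g * z ^ c * g⁻¹ = z ^ (-c) := by
      intro c
      rw [← conj_zpow, hconj, inv_zpow, zpow_neg]
    -- the subgroup generated by g and z²
    have hM : (Subgroup.zpowers (z ^ (2 : ℤ))).Normal := by
      constructor
      rintro _ ⟨c, rfl⟩ x
      obtain ⟨a, ha⟩ := (hmemN _).1 (hN.conj_mem z hzN x)
      refine ⟨a * c, ?_⟩
      show (z ^ (2 : ℤ)) ^ (a * c) = x * (z ^ (2 : ℤ)) ^ c * x⁻¹
      rw [← zpow_mul, ← zpow_mul, ← conj_zpow, ← ha, ← zpow_mul]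
      congr 1
      ring
    set K := Subgroup.zpowers g ⊔ Subgroup.zpowers (z ^ (2 : ℤ)) with hK
    have hgK : g ∈ K := (le_sup_left : Subgroup.zpowers g ≤ K) (Subgroup.mem_zpowers g)
    have hzK : z ^ (2 : ℤ) ∈ K :=
      (le_sup_right : Subgroup.zpowers (z ^ (2 : ℤ)) ≤ K) (Subgroup.mem_zpowers _)
    have hKt : K = ⊤ := by
      by_contra hK1
      obtain ⟨⟨c, hc⟩, hcg⟩ := h K hK1
      obtain ⟨a, ha⟩ := hcg ⟨g, hgK⟩
      obtain ⟨b, hb⟩ := hcg ⟨z ^ (2 : ℤ), hzK⟩
      have ha' : c ^ a = g := by simpa using congrArg Subtype.val ha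
      have hb' : c ^ b = z ^ (2 : ℤ) := by simpa using congrArg Subtype.val hb
      have h1 : g * z ^ (2 : ℤ) * g⁻¹ = z ^ (2 : ℤ) := by
        rw [← ha', ← hb']
        group
      rw [hconjz] at h1
      have := zpow_inj_of hz h1
      omega
    have hzK' : z ∈ K := by rw [hKt]; trivial
    rw [hK, Subgroup.mem_sup_of_normal_right] at hzK'
    obtain ⟨_, ⟨a, rfl⟩, _, ⟨b, rfl⟩, hab⟩ := hzK'
    have hab' : g ^ a * (z ^ (2 : ℤ)) ^ b = z := hab
    have h1 : g ^ a = z ^ (1 - 2 * b) := by
      rw [zpow_sub, zpow_one, zpow_mul]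
      exact eq_mul_inv_of_mul_eq hab'
    have h2 := hconjz (1 - 2 * b)
    rw [← h1] at h2
    have h3 : g * g ^ a * g⁻¹ = g ^ a := by group
    rw [h3, h1] at h2
    have := zpow_inj_of hz h2
    omega
  -- G is torsion free
  have htf : ∀ t : G, IsOfFinOrder t → t = 1 := by
    intro t ht
    by_contra ht1
    have hM : (Subgroup.zpowers (z ^ (2 : ℤ))).Normal := by
      constructor
      rintro _ ⟨c, rfl⟩ x
      refine ⟨c, ?_⟩
      show (z ^ (2 : ℤ)) ^ c = x * (z ^ (2 : ℤ)) ^ c * x⁻¹
      have hx : Commute x z := hcent x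
      have : Commute x ((z ^ (2 : ℤ)) ^ c) := (hx.zpow_right 2).zpow_right c
      rw [this.eq]
      group
    set K := Subgroup.zpowers t ⊔ Subgroup.zpowers (z ^ (2 : ℤ)) with hK
    have hgK : t ∈ K := (le_sup_left : Subgroup.zpowers t ≤ K) (Subgroup.mem_zpowers t)
    have hzK : z ^ (2 : ℤ) ∈ K :=
      (le_sup_right : Subgroup.zpowers (z ^ (2 : ℤ)) ≤ K) (Subgroup.mem_zpowers _)
    have hz2 : ¬ IsOfFinOrder (z ^ (2 : ℤ)) := by
      intro hf
      obtain ⟨n, hn, hn1⟩ := isOfFinOrder_iff_pow_eq_one.1 hf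
      rw [← zpow_natCast, ← zpow_mul] at hn1
      have := zpow_inj_of hz (hn1.trans (zpow_zero z).symm)
      omega
    have hKt : K = ⊤ := by
      by_contra hK1
      exact not_cyclic_of_torsion hgK hzK ht1 ht hz2 (h K hK1)
    have hzK' : z ∈ K := by rw [hKt]; trivial
    rw [hK, Subgroup.mem_sup_of_normal_right] at hzK'
    obtain ⟨_, ⟨a, rfl⟩, _, ⟨b, rfl⟩, hab⟩ := hzK'
    have hab' : t ^ a * (z ^ (2 : ℤ)) ^ b = z := hab
    have h1 : t ^ a = z ^ (1 - 2 * b) := by
      rw [zpow_sub, zpow_one, zpow_mul]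
      exact eq_mul_inv_of_mul_eq hab'
    have h2 : IsOfFinOrder (z ^ (1 - 2 * b)) := by rw [← h1]; exact ht.zpow
    obtain ⟨n, hn, hn1⟩ := isOfFinOrder_iff_pow_eq_one.1 h2
    rw [← zpow_natCast, ← zpow_mul] at hn1
    have h3 := zpow_inj_of hz (hn1.trans (zpow_zero z).symm)
    rcases mul_eq_zero.1 h3 with h4 | h4 <;> omega
  -- G is abelian
  have hNc : N ≤ Subgroup.center G := by
    intro x hx
    obtain ⟨a, rfl⟩ := (hmemN x).1 hx
    rw [Subgroup.mem_center_iff]
    intro g
    have hx : Commute g z := hcent g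
    exact (hx.zpow_right a).eq
  have hZf : (Subgroup.center G).FiniteIndex := Subgroup.finiteIndex_of_le hNc
  have hinj : Function.Injective (MonoidHom.transferCenterPow G) := by
    rw [injective_iff_map_eq_one]
    intro x hx
    have h1 := MonoidHom.transferCenterPow_apply x
    rw [hx] at h1
    apply htf
    rw [isOfFinOrder_iff_pow_eq_one]
    exact ⟨_, Nat.pos_of_ne_zero hZf.index_ne_zero, by rw [← h1]; rfl⟩
  have hcomm : ∀ x y : G, x * y = y * x := by
    intro x y
    apply hinj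
    rw [map_mul, map_mul]
    apply Subtype.ext
    have := (Subgroup.mem_center_iff.1 (MonoidHom.transferCenterPow G x).2)
      ((MonoidHom.transferCenterPow G y : G))
    exact this.symm
  apply hnc
  let f : G →* N :=
    { toFun := fun g => ⟨g ^ N.index, Subgroup.pow_index_mem N g⟩
      map_one' := by ext; simp
      map_mul' := fun x y => by
        ext
        show (x * y) ^ N.index = x ^ N.index * y ^ N.index
        exact (show Commute x y from hcomm x y).mul_pow _ }
  have hf : Function.Injective f := by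
    rw [injective_iff_map_eq_one]
    intro x hx
    apply htf
    rw [isOfFinOrder_iff_pow_eq_one]
    exact ⟨N.index, Nat.pos_of_ne_zero hNf.index_ne_zero, congrArg Subtype.val hx⟩
  have : IsCyclic N := h N hNt
  exact isCyclic_of_injective f hf

end Pool.Agent.R673.MG
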