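import Pool.Agent.H71R2.AM.Mean
import Pool.Agent.R673.MG.Types

/-!
# Groups of subexponential growth and tree-like actions
-/

set_option autoImplicit false

open scoped Pointwise

namespace Pool.Agent.R673.MG

open Pool.Agent.H71R2.TW

universe u v w

/-- The ball of radius `n` in `G` with respect to `S`. -/
def ball {G : Type u} [Group G] (S : Finset G) (n : ℕ) : Set G :=
  ((S : Set G) ∪ (S : Set G)⁻¹ ∪ {1}) ^ n

theorem ball_finite {G : Type u} [Group G] (S : Finset G) (n : ℕ) : (ball S n).Finite := by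
  unfold ball
  have h : ((S : Set G) ∪ (S : Set G)⁻¹ ∪ {1}).Finite :=
    (S.finite_toSet.union S.finite_toSet.inv).union (Set.finite_singleton _)
  induction n with
  | zero => rw [pow_zero]; exact Set.finite_one
  | succ n ih => rw [pow_succ]; exact ih.mul h

theorem mul_mem_ball {G : Type u} [Group G] {S : Finset G} {n : ℕ} {s g : G}
    (hs : s ∈ S ∨ s⁻¹ ∈ S) (hg : g ∈ ball S n) : s * g ∈ ball S (n + 1) := by
  unfold ball at *
  rw [pow_succ']
  refine Set.mul_mem_mul ?_ hg
  rcases hs with h | h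
  · exact Or.inl (Or.inl h)
  · exact Or.inl (Or.inr (by simpa using h))

theorem ball_mono {G : Type u} [Group G] (S : Finset G) (n : ℕ) : ball S n ⊆ ball S (n + 1) := by
  intro g hg
  unfold ball at *
  rw [pow_succ']
  exact ⟨1, Or.inr rfl, g, hg, one_mul g⟩

open Classical in
/-- A finitely presented group of subexponential growth without proper subgroups of finite index
has no nontrivial tree-like action. -/
theorem no_action {G : Type u} [Group G] (S : Finset G) (L k C : ℕ)
    (hC : ∀ (X : Type v) [MulAction G X] (F : Finset X) (V : Type w)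
      (T : SimpleGraph V) (π : X → V), NoShort T L →
      (∀ t, (F.filter (fun x => π x = t)).card ≤ k) →
      (∀ x ∈ F, ∀ s ∈ S, s • x ∈ F → π (s • x) = π x ∨ T.Adj (π x) (π (s • x))) →
      (F.filter (fun x => ∃ g : G, g • x ≠ x)).card ≤
        C * (F.filter (fun x => ∃ s ∈ S, s • x ∉ F ∨ s⁻¹ • x ∉ F)).card)
    (hsub : ∀ c : ℝ, 0 < c → ∃ r : ℕ, ((ball S r).ncard : ℝ) < Real.exp (c * r))
    (X : Type v) [MulAction G X] (V : Type w)
    (T : SimpleGraph V) (π : X → V) (hT : NoShort T L)
    (hπ : ∀ t, {x | π x = t}.encard ≤ k)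
    (hadj : ∀ x, ∀ s ∈ S, π (s • x) = π x ∨ T.Adj (π x) (π (s • x))) (g : G) (x : X) :
    g • x = x := by
  by_contra hgx
  -- the ball in the orbit
  let B : ℕ → Finset X := fun n => ((ball_finite S n).image (fun h => h • x)).toFinset
  have hB : ∀ n y, y ∈ B n ↔ ∃ h ∈ ball S n, h • x = y := by
    intro n y
    simp [B]
  have hBmono : ∀ n, B n ⊆ B (n + 1) := by
    intro n y hy
    obtain ⟨h, hh, rfl⟩ := (hB n y).1 hy
    exact (hB _ _).2 ⟨h, ball_mono S n hh, rfl⟩
  have hnf : ∀ n, ∀ y ∈ B n, ∃ a : G, a • y ≠ y := by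
    intro n y hy
    obtain ⟨h, -, rfl⟩ := (hB n y).1 hy
    by_contra hcon
    push Not at hcon
    apply hgx
    have h1 := hcon h⁻¹
    rw [inv_smul_smul] at h1
    have h2 := hcon (h * g * h⁻¹)
    have h3 : (h * g * h⁻¹) • (h • x) = h • (g • x) := by
      rw [← mul_smul, ← mul_smul]
      congr 1
      group
    rw [h3] at h2
    exact smul_left_cancel h h2
  have hstep : ∀ n, ((B n).card : ℝ) * (C + 1) ≤ C * ((B (n + 1)).card : ℝ) := by
    intro n
    have h1 := hC X (B (n + 1)) V T π hT ?_ ?_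
    · have h2 : (B (n + 1)).filter (fun x => ∃ g : G, g • x ≠ x) = B (n + 1) := by
        rw [Finset.filter_eq_self]
        exact hnf (n + 1)
      rw [h2] at h1
      have h3 : ((B (n + 1)).filter (fun x => ∃ s ∈ S, s • x ∉ B (n + 1) ∨
          s⁻¹ • x ∉ B (n + 1))) ⊆ B (n + 1) \ B n := by
        intro y hy
        rw [Finset.mem_filter] at hy
        rw [Finset.mem_sdiff]
        refine ⟨hy.1, fun hyn => ?_⟩
        obtain ⟨h, hh, rfl⟩ := (hB n y).1 hyn
        obtain ⟨s, hs, hs1⟩ := hy.2
        rcases hs1 with hs1 | hs1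
        · apply hs1
          rw [← mul_smul]
          exact (hB _ _).2 ⟨_, mul_mem_ball (Or.inl hs) hh, rfl⟩
        · apply hs1
          rw [← mul_smul]
          exact (hB _ _).2 ⟨_, mul_mem_ball (Or.inr (by simpa using hs)) hh, rfl⟩
      have h4 := (h1.trans (Nat.mul_le_mul_left C (Finset.card_le_card h3)))
      rw [Finset.card_sdiff_of_subset (hBmono n)] at h4
      have h5 : (B n).card ≤ (B (n + 1)).card := Finset.card_le_card (hBmono n)
      have h6 : ((B (n + 1)).card : ℝ) ≤ C * ((B (n + 1)).card - (B n).card : ℝ) := by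
        have := (Nat.cast_le (α := ℝ)).2 h4
        rw [Nat.cast_mul, Nat.cast_sub h5] at this
        exact this
      have h7 : ((B n).card : ℝ) ≤ (B (n + 1)).card := by exact_mod_cast h5
      nlinarith
    · intro t
      have h2 : (((B (n + 1)).filter (fun x => π x = t)) : Set X) ⊆ {x | π x = t} := by
        intro y hy
        rw [Finset.mem_coe, Finset.mem_filter] at hy
        exact hy.2
      have h3 := Set.encard_le_encard h2
      rw [Set.encard_coe_eq_coe_finsetCard] at h3
      exact_mod_cast h3.trans (hπ t)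
    · intro y _ s hs _
      exact hadj y s hs
  have hx0 : x ∈ B 0 := (hB 0 x).2 ⟨1, by simp [ball], one_smul _ _⟩
  have hC0 : (0 : ℝ) < C := by
    rcases Nat.eq_zero_or_pos C with h | h
    · exfalso
      have h1 := hstep 0
      rw [h] at h1
      simp only [Nat.cast_zero, zero_add, mul_one, zero_mul] at h1
      have h2 : (0 : ℝ) < ((B 0).card : ℝ) := by
        exact_mod_cast Finset.card_pos.2 ⟨x, hx0⟩
      linarith
    · exact_mod_cast h
  have hgrow : ∀ n : ℕ, (1 + 1 / (C : ℝ)) ^ n ≤ ((B n).card : ℝ) := by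
    intro n
    induction n with
    | zero =>
      rw [pow_zero]
      exact_mod_cast Finset.card_pos.2 ⟨x, hx0⟩
    | succ n ih =>
      have h1 := hstep n
      have h2 : ((B n).card : ℝ) * (1 + 1 / C) ≤ ((B (n + 1)).card : ℝ) := by
        have h3 : ((B n).card : ℝ) * (1 + 1 / C) = ((B n).card : ℝ) * (C + 1) / C := by
          field_simp
          try ring
        rw [h3, div_le_iff₀ hC0]
        linarith
      calc (1 + 1 / (C : ℝ)) ^ (n + 1) = (1 + 1 / (C : ℝ)) ^ n * (1 + 1 / C) := pow_succ _ _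
        _ ≤ ((B n).card : ℝ) * (1 + 1 / C) := by
            apply mul_le_mul_of_nonneg_right ih
            positivity
        _ ≤ _ := h2
  have hle : ∀ n : ℕ, (B n).card ≤ (ball S n).ncard := by
    intro n
    have h1 : (B n).card = ((fun h : G => h • x) '' (ball S n)).ncard := by
      rw [Set.ncard_eq_toFinset_card _ ((ball_finite S n).image _)]
    rw [h1]
    exact Set.ncard_image_le (ball_finite S n)
  have h1C : (1 : ℝ) < 1 + 1 / (C : ℝ) := by
    have : (0 : ℝ) < 1 / (C : ℝ) := by positivity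
    linarith
  obtain ⟨r, hr⟩ := hsub (Real.log (1 + 1 / (C : ℝ))) (Real.log_pos h1C)
  have h2 : Real.exp (Real.log (1 + 1 / (C : ℝ)) * r) = (1 + 1 / (C : ℝ)) ^ r := by
    rw [mul_comm, Real.exp_nat_mul, Real.exp_log (by linarith)]
  rw [h2] at hr
  have h3 := (hgrow r).trans ((Nat.cast_le (α := ℝ)).2 (hle r))
  linarith

end Pool.Agent.R673.MG
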